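import Pool.Agent.Y192.OG.StE

/-!
Approximation and the valuation trick for ramified covers.
-/

set_option autoImplicit false

namespace Pool.Agent.Y32.OG

open FF MvPolynomial Pool.Agent.W603.LV Pool.Agent.TH122.AB Pool.Agent.Y192.OG
open Pool.Agent.W619.PQ

section approx

variable {k K : Type} [Field k] [Field K] [Algebra k K]

/-- an element with prescribed leading terms at finitely many places -/
theorem approx_fin (S : Finset (Place k K)) (a : Place k K → K) (N : ℤ)
    (ha : ∀ P ∈ S, a P ≠ 0 ∧ P.ord (a P) < N) :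
    ∃ u : K, u ≠ 0 ∧ ∀ P ∈ S, Ge P N (u - a P) := by
  classical
  by_cases hS : S = ∅
  · exact ⟨1, one_ne_zero, fun P hP => by rw [hS] at hP; exact absurd hP (Finset.notMem_empty P)⟩
  obtain ⟨P0, hP0⟩ := Finset.nonempty_iff_ne_empty.2 hS
  have h1 : ∀ P : Place k K, ∃ c : K, Ge P N (c - a P) ∧ ∀ Q ∈ S.erase P, Ge Q N c := fun P =>
    approx_one (S.erase P) P (Finset.notMem_erase P S) (a P) N
  choose c hc hc' using h1
  have h2 : ∀ P ∈ S, Ge P N (∑ Q ∈ S, c Q - a P) := by
    intro P hP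
    rw [← Finset.add_sum_erase S c hP]
    have h3 : c P + ∑ Q ∈ S.erase P, c Q - a P = (c P - a P) + ∑ Q ∈ S.erase P, c Q := by ring
    rw [h3]
    refine (hc P).add (Ge.sum _ _ fun Q hQ => hc' Q P ?_)
    exact Finset.mem_erase.2 ⟨(Finset.ne_of_mem_erase hQ).symm, hP⟩
  refine ⟨∑ Q ∈ S, c Q, fun h0 => ?_, h2⟩
  have h3 := h2 P0 hP0
  rw [h0, zero_sub] at h3
  rcases h3 with h3 | h3
  · exact (ha P0 hP0).1 (neg_eq_zero.1 h3)
  · rw [P0.ord_neg] at h3
    have := (ha P0 hP0).2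
    omega

/-- an element close to `a` has the order of `a` -/
theorem ord_of_close {P : Place k K} {u a : K} {N : ℤ} (h : Ge P N (u - a)) (ha : a ≠ 0)
    (haN : P.ord a < N) : P.ord u = P.ord a := by
  rcases h with h | h
  · rw [sub_eq_zero.1 h]
  · by_cases h0 : u - a = 0
    · rw [sub_eq_zero.1 h0]
    · have h1 := (P.ord_add_eq ha h0 (by omega)).2
      rwa [add_sub_cancel] at h1

end approx

section values

theorem two_add {x y : WithTop ℤ} (hx : 0 ≤ x) (hy : 0 ≤ y) (h : (1 : WithTop ℤ) = x + x + y) :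
    x = 0 := by
  induction x using WithTop.recTopCoe with
  | top => rw [WithTop.top_add, WithTop.top_add] at h; exact absurd h WithTop.one_ne_top
  | coe x =>
    induction y using WithTop.recTopCoe with
    | top => rw [WithTop.add_top] at h; exact absurd h WithTop.one_ne_top
    | coe y =>
      norm_cast at h hx hy ⊢
      omega

theorem pow_v {R : Type} [CommRing R] {v : R → WithTop ℤ} (hv : IsV v) (a : R) (n : ℕ) :
    v (a ^ n) = n • v a := by
  induction n with
  | zero => rw [pow_zero, hv.one, zero_smul]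
  | succ n ih => rw [pow_succ, hv.mul, ih, succ_nsmul]

theorem trick {K : Type} [Field K] (F0 G u1 u2 δ α β : K) (M κ t : ℕ) (ψ γ : Fin t → K)
    (hδ : u1 ^ 2 * δ = F0) (hα : α * F0 = G * (1 - u2) ^ M) (hβ : β * G = F0 * (1 - u2) ^ M)
    (hγ : ∀ i, γ i = (u1 * u2) ^ M * ψ i)
    (R : Subring K) (v : R → WithTop ℤ) (hv : IsV v) (W fr Gr g1 : R) (h : Fin t → R)
    (hu1R : (W : K) * u1 ∈ R) (hu2R : (W : K) * u2 ∈ R) (hδR : (W : K) * δ ∈ R)
    (hαR : (W : K) * α ∈ R) (hβR : (W : K) * β ∈ R) (hγR : ∀ i, (W : K) * γ i ∈ R)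
    (hfr : (fr : K) = F0) (hGr : (Gr : K) = G)
    (hh : ∀ i, (h i : K) = (fr : K) ^ κ * (g1 : K) * ψ i) (hW : v W = 0) (hf1 : v fr = 1)
    (hG1 : v Gr ≠ 1) (i : Fin t) : ((κ : ℤ) : WithTop ℤ) ≤ v (h i) := by
  have hWp : ∀ n : ℕ, v (W ^ n) = 0 := fun n => by rw [pow_v hv, hW, smul_zero]
  set U1 : R := ⟨(W : K) * u1, hu1R⟩ with hU1
  set U2 : R := ⟨(W : K) * u2, hu2R⟩ with hU2
  set C : R := ⟨(W : K) * δ, hδR⟩ with hC
  set A' : R := ⟨(W : K) * α, hαR⟩ with hA'
  set B' : R := ⟨(W : K) * β, hβR⟩ with hB'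
  have e1 : W ^ 3 * fr = U1 * U1 * C := by
    apply Subtype.ext
    push_cast
    rw [hfr, ← hδ]
    ring
  have v1 : v U1 = 0 := by
    refine two_add (hv.nonneg _) (hv.nonneg C) ?_
    have := congrArg v e1
    rw [hv.mul, hv.mul, hv.mul, hWp, hf1, zero_add] at this
    exact this
  have v2 : v U2 = 0 := by
    by_contra hne
    have hpos : 0 < v U2 := lt_of_le_of_ne (hv.nonneg _) (Ne.symm hne)
    have h1 : v (W - U2) = 0 := by
      have h2 := hv.add (W - U2) U2
      rw [sub_add_cancel, hW] at h2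
      rcases min_le_iff.1 h2 with h3 | h3
      · exact le_antisymm h3 (hv.nonneg _)
      · exact absurd h3 (not_le.2 hpos)
    have h1p : ∀ n : ℕ, v ((W - U2) ^ n) = 0 := fun n => by rw [pow_v hv, h1, smul_zero]
    have e2 : W * Gr * (W - U2) ^ M = W ^ M * fr * A' := by
      apply Subtype.ext
      push_cast
      rw [hGr, hfr]
      have h3 : ((W : K) - (W : K) * u2) ^ M = (W : K) ^ M * (1 - u2) ^ M := by
        rw [← mul_pow]; congr 1; ring
      rw [h3]
      have h4 : (W : K) ^ M * F0 * ((W : K) * α) = (W : K) ^ M * (W : K) * (α * F0) := by ring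
      rw [h4, hα]
      ring
    have e3 : W * fr * (W - U2) ^ M = W ^ M * Gr * B' := by
      apply Subtype.ext
      push_cast
      rw [hGr, hfr]
      have h3 : ((W : K) - (W : K) * u2) ^ M = (W : K) ^ M * (1 - u2) ^ M := by
        rw [← mul_pow]; congr 1; ring
      rw [h3]
      have h4 : (W : K) ^ M * G * ((W : K) * β) = (W : K) ^ M * (W : K) * (β * G) := by ring
      rw [h4, hβ]
      ring
    have f2 := congrArg v e2
    have f3 := congrArg v e3
    rw [hv.mul, hv.mul, hv.mul, hv.mul, hW, h1p, hWp, hf1, zero_add, add_zero, zero_add] at f2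
    rw [hv.mul, hv.mul, hv.mul, hv.mul, hW, h1p, hWp, hf1, zero_add, add_zero, zero_add] at f3
    apply hG1
    apply le_antisymm
    · rw [f3]
      exact le_add_of_nonneg_right (hv.nonneg _)
    · rw [f2]
      exact le_add_of_nonneg_right (hv.nonneg _)
  set Ci : R := ⟨(W : K) * γ i, hγR i⟩ with hCi
  have e4 : W * (U1 * U2) ^ M * h i = W ^ (2 * M) * fr ^ κ * g1 * Ci := by
    apply Subtype.ext
    change (W : K) * ((W : K) * u1 * ((W : K) * u2)) ^ M * (h i : K) =
      (W : K) ^ (2 * M) * (fr : K) ^ κ * (g1 : K) * ((W : K) * γ i)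
    rw [hh i, hγ i]
    have h3 : ((W : K) * u1 * ((W : K) * u2)) ^ M = (W : K) ^ (2 * M) * (u1 * u2) ^ M := by
      rw [two_mul, pow_add, ← mul_pow, ← mul_pow]; congr 1; ring
    rw [h3]
    ring
  have f4 := congrArg v e4
  rw [hv.mul, hv.mul, hv.mul, hv.mul, hv.mul, hW, hWp, pow_v hv (U1 * U2), hv.mul U1 U2, v1, v2,
    pow_v hv fr, hf1, add_zero, smul_zero, zero_add, zero_add, zero_add] at f4
  rw [f4]
  have h5 : (κ • (1 : WithTop ℤ)) = ((κ : ℤ) : WithTop ℤ) := by
    rw [nsmul_one]; rfl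
  rw [h5]
  exact le_trans (le_add_of_nonneg_right (hv.nonneg _)) (le_add_of_nonneg_right (hv.nonneg _))

end values

section abstract_form

variable {k K : Type} [Field k] [Field K] [Algebra k K]

theorem val_abs (S : Finset (Place k K)) (F0 G : K) (hF0 : F0 ≠ 0) (hG0 : G ≠ 0)
    (hSF : ∀ P ∈ S, 1 ≤ P.ord F0) (hSG : ∀ P ∈ S, P.Reg G) (κ t : ℕ) (ψ : Fin t → K)
    (hψ : ∀ P ∈ S, P.ord F0 = 1 → P.ord G ≠ 1 → ∀ i, P.Reg (ψ i)) :
    ∃ Z : Finset K, (∀ z ∈ Z, ∀ P ∈ S, P.Reg z) ∧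
      ∀ (R : Subring K) (v : R → WithTop ℤ), IsV v → ∀ (W fr Gr g1 : R) (h : Fin t → R),
        (∀ z ∈ Z, (W : K) * z ∈ R) → (fr : K) = F0 → (Gr : K) = G →
        (∀ i, (h i : K) = (fr : K) ^ κ * (g1 : K) * ψ i) → v W = 0 → v fr = 1 → v Gr ≠ 1 →
        ∀ i, ((κ : ℤ) : WithTop ℤ) ≤ v (h i) := by
  classical
  have hπ : ∀ P : Place k K, ∃ p : K, p ≠ 0 ∧ P.ord p = 1 := fun P => P.surj
  choose π hπ0 hπ1 using hπ
  let a1 : Place k K → K := fun P => if 2 ≤ P.ord F0 then π P else 1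
  let a2 : Place k K → K := fun P => if P.ord F0 = 1 ∧ P.ord G = 1 then π P else 1
  have ha1 : ∀ P, a1 P ≠ 0 ∧ P.ord (a1 P) < 2 := by
    intro P
    simp only [a1]
    split_ifs
    · exact ⟨hπ0 P, by rw [hπ1]; norm_num⟩
    · exact ⟨one_ne_zero, by rw [P.ord_one]; norm_num⟩
  have ha2 : ∀ P, a2 P ≠ 0 ∧ P.ord (a2 P) < 2 := by
    intro P
    simp only [a2]
    split_ifs
    · exact ⟨hπ0 P, by rw [hπ1]; norm_num⟩
    · exact ⟨one_ne_zero, by rw [P.ord_one]; norm_num⟩
  obtain ⟨u1, hu1, hu1'⟩ := approx_fin S a1 2 (fun P _ => ha1 P)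
  obtain ⟨u2, hu2, hu2'⟩ := approx_fin S a2 2 (fun P _ => ha2 P)
  have o1 : ∀ P ∈ S, P.ord u1 = P.ord (a1 P) := fun P hP =>
    ord_of_close (hu1' P hP) (ha1 P).1 (ha1 P).2
  have o2 : ∀ P ∈ S, P.ord u2 = P.ord (a2 P) := fun P hP =>
    ord_of_close (hu2' P hP) (ha2 P).1 (ha2 P).2
  obtain ⟨M, hM⟩ : ∃ M : ℕ, ∀ P ∈ S, P.ord F0 ≤ M ∧ P.ord G ≤ M ∧ ∀ i, -P.ord (ψ i) ≤ M := by
    refine ⟨∑ P ∈ S, ((P.ord F0).toNat + (P.ord G).toNat + ∑ i, (-P.ord (ψ i)).toNat),
      fun P hP => ?_⟩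
    have h1 := Finset.single_le_sum (f := fun P : Place k K =>
      ((P.ord F0).toNat + (P.ord G).toNat + ∑ i, (-P.ord (ψ i)).toNat))
      (fun _ _ => Nat.zero_le _) hP
    refine ⟨by omega, by omega, fun i => ?_⟩
    have h2 := Finset.single_le_sum (f := fun i : Fin t => (-P.ord (ψ i)).toNat)
      (fun _ _ => Nat.zero_le _) (Finset.mem_univ i)
    omega
  set δ : K := F0 / u1 ^ 2 with hδ
  set α : K := G * (1 - u2) ^ M / F0 with hα
  set β : K := F0 * (1 - u2) ^ M / G with hβ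
  set γ : Fin t → K := fun i => (u1 * u2) ^ M * ψ i with hγ
  have hδ0 : δ ≠ 0 := div_ne_zero hF0 (pow_ne_zero _ hu1)
  -- the orders
  have reg1 : ∀ P ∈ S, P.Reg u1 := by
    intro P hP
    right
    rw [o1 P hP]
    simp only [a1]
    split_ifs
    · rw [hπ1]; norm_num
    · rw [P.ord_one]
  have reg2 : ∀ P ∈ S, P.Reg u2 := by
    intro P hP
    right
    rw [o2 P hP]
    simp only [a2]
    split_ifs
    · rw [hπ1]; norm_num
    · rw [P.ord_one]
  have regδ : ∀ P ∈ S, P.Reg δ := by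
    intro P hP
    right
    rw [hδ, P.ord_div hF0 (pow_ne_zero _ hu1), P.ord_pow, o1 P hP]
    have h1 := hSF P hP
    simp only [a1]
    split_ifs with h2
    · rw [hπ1]; push_cast; omega
    · rw [P.ord_one]; omega
  -- the two cases for `1 - u2`
  have hcase : ∀ P ∈ S, (P.ord F0 = 1 ∧ P.ord G = 1 ∧ 1 - u2 ≠ 0 ∧ P.ord (1 - u2) = 0) ∨
      (1 - u2 = 0 ∨ 2 ≤ P.ord (1 - u2)) := by
    intro P hP
    by_cases h1 : P.ord F0 = 1 ∧ P.ord G = 1
    · left
      have h2 : P.ord u2 = 1 := by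
        rw [o2 P hP]
        simp only [a2]
        rw [if_pos h1, hπ1]
      have h3 := P.ord_add_eq (f := 1) (g := -u2) one_ne_zero (neg_ne_zero.2 hu2)
        (by rw [P.ord_one, P.ord_neg, h2]; norm_num)
      rw [← sub_eq_add_neg, P.ord_one] at h3
      exact ⟨h1.1, h1.2, h3⟩
    · right
      have h2 := hu2' P hP
      simp only [a2] at h2
      rw [if_neg h1] at h2
      have h3 := h2.neg
      rw [neg_sub] at h3
      exact h3
  have regα : ∀ P ∈ S, P.Reg α := by
    intro P hP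
    have hg := (P.reg_iff hG0).1 (hSG P hP)
    rcases hcase P hP with ⟨h1, h2, h3, h4⟩ | h1 | h1
    · right
      rw [hα, P.ord_div (mul_ne_zero hG0 (pow_ne_zero _ h3)) hF0,
        P.ord_mul hG0 (pow_ne_zero _ h3), P.ord_pow, h4, h1, h2]
      norm_num
    · by_cases hM0 : M = 0
      · exfalso
        have h5 := (hM P hP).1
        have h6 := hSF P hP
        rw [hM0] at h5
        push_cast at h5
        omega
      · left
        rw [hα, h1, zero_pow hM0, mul_zero, zero_div]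
    · by_cases h0 : 1 - u2 = 0
      · rw [h0, P.ord_zero] at h1
        norm_num at h1
      · right
        rw [hα, P.ord_div (mul_ne_zero hG0 (pow_ne_zero _ h0)) hF0,
          P.ord_mul hG0 (pow_ne_zero _ h0), P.ord_pow]
        have h5 := (hM P hP).1
        have h6 : (M : ℤ) * 2 ≤ (M : ℤ) * P.ord (1 - u2) :=
          mul_le_mul_of_nonneg_left h1 (by positivity)
        have h7 : (0 : ℤ) ≤ M := by positivity
        linarith
  have regβ : ∀ P ∈ S, P.Reg β := by
    intro P hP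
    have hg := (P.reg_iff hG0).1 (hSG P hP)
    rcases hcase P hP with ⟨h1, h2, h3, h4⟩ | h1 | h1
    · right
      rw [hβ, P.ord_div (mul_ne_zero hF0 (pow_ne_zero _ h3)) hG0,
        P.ord_mul hF0 (pow_ne_zero _ h3), P.ord_pow, h4, h1, h2]
      norm_num
    · by_cases hM0 : M = 0
      · exfalso
        have h5 := (hM P hP).1
        have h6 := hSF P hP
        rw [hM0] at h5
        push_cast at h5
        omega
      · left
        rw [hβ, h1, zero_pow hM0, mul_zero, zero_div]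
    · by_cases h0 : 1 - u2 = 0
      · rw [h0, P.ord_zero] at h1
        norm_num at h1
      · right
        rw [hβ, P.ord_div (mul_ne_zero hF0 (pow_ne_zero _ h0)) hG0,
          P.ord_mul hF0 (pow_ne_zero _ h0), P.ord_pow]
        have h5 := (hM P hP).2.1
        have h8 := hSF P hP
        have h6 : (M : ℤ) * 2 ≤ (M : ℤ) * P.ord (1 - u2) :=
          mul_le_mul_of_nonneg_left h1 (by positivity)
        have h7 : (0 : ℤ) ≤ M := by positivity
        linarith
  have regγ : ∀ P ∈ S, ∀ i, P.Reg (γ i) := by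
    intro P hP i
    by_cases hψ0 : ψ i = 0
    · left
      simp only [hγ]
      rw [hψ0, mul_zero]
    have hM' := (hM P hP).2.2 i
    have h8 := hSF P hP
    have hu : P.ord ((u1 * u2) ^ M * ψ i) = M * (P.ord u1 + P.ord u2) + P.ord (ψ i) := by
      rw [P.ord_mul (pow_ne_zero _ (mul_ne_zero hu1 hu2)) hψ0, P.ord_pow, P.ord_mul hu1 hu2]
    have r1 := (P.reg_iff hu1).1 (reg1 P hP)
    have r2 := (P.reg_iff hu2).1 (reg2 P hP)
    have hM0 : (0 : ℤ) ≤ M := by positivity
    right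
    simp only [hγ]
    rw [hu]
    by_cases h1 : 2 ≤ P.ord F0
    · have h2 : P.ord u1 = 1 := by
        rw [o1 P hP]
        simp only [a1]
        rw [if_pos h1, hπ1]
      rw [h2]
      have h3 : (M : ℤ) * 1 ≤ (M : ℤ) * (1 + P.ord u2) :=
        mul_le_mul_of_nonneg_left (by omega) hM0
      linarith
    · have h2 : P.ord F0 = 1 := by omega
      by_cases h3 : P.ord G = 1
      · have h4 : P.ord u2 = 1 := by
          rw [o2 P hP]
          simp only [a2]
          rw [if_pos ⟨h2, h3⟩, hπ1]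
        rw [h4]
        have h5 : (M : ℤ) * 1 ≤ (M : ℤ) * (P.ord u1 + 1) :=
          mul_le_mul_of_nonneg_left (by omega) hM0
        linarith
      · have h4 := (P.reg_iff hψ0).1 (hψ P hP h2 h3 i)
        have h5 : 0 ≤ (M : ℤ) * (P.ord u1 + P.ord u2) := mul_nonneg hM0 (by omega)
        linarith
  refine ⟨insert u1 (insert u2 (insert δ (insert α (insert β (Finset.univ.image γ))))), ?_, ?_⟩
  · intro z hz P hP
    rw [Finset.mem_insert, Finset.mem_insert, Finset.mem_insert, Finset.mem_insert,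
      Finset.mem_insert, Finset.mem_image] at hz
    rcases hz with rfl | rfl | rfl | rfl | rfl | ⟨i, _, rfl⟩
    · exact reg1 P hP
    · exact reg2 P hP
    · exact regδ P hP
    · exact regα P hP
    · exact regβ P hP
    · exact regγ P hP i
  · intro R v hv W fr Gr g1 h hZ hfr hGr hh hW hf1 hG1 i
    refine trick F0 G u1 u2 δ α β M κ t ψ γ ?_ ?_ ?_ (fun i => rfl) R v hv W fr Gr g1 h
      (hZ _ ?_) (hZ _ ?_) (hZ _ ?_) (hZ _ ?_) (hZ _ ?_) (fun j => hZ _ ?_) hfr hGr hh hW hf1 hG1 i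
    · rw [hδ]
      field_simp
    · rw [hα, div_mul_cancel₀ _ hF0]
    · rw [hβ, div_mul_cancel₀ _ hG0]
    · exact Finset.mem_insert_self _ _
    · exact Finset.mem_insert_of_mem (Finset.mem_insert_self _ _)
    · exact Finset.mem_insert_of_mem (Finset.mem_insert_of_mem (Finset.mem_insert_self _ _))
    · exact Finset.mem_insert_of_mem (Finset.mem_insert_of_mem (Finset.mem_insert_of_mem
        (Finset.mem_insert_self _ _)))
    · exact Finset.mem_insert_of_mem (Finset.mem_insert_of_mem (Finset.mem_insert_of_mem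
        (Finset.mem_insert_of_mem (Finset.mem_insert_self _ _))))
    · exact Finset.mem_insert_of_mem (Finset.mem_insert_of_mem (Finset.mem_insert_of_mem
        (Finset.mem_insert_of_mem (Finset.mem_insert_of_mem
          (Finset.mem_image.2 ⟨j, Finset.mem_univ j, rfl⟩)))))

end abstract_form

section final

variable {k F K : Type} [Field k] [CharZero k] [Field F] [Field K] [Algebra k F] [Algebra k K]
  [Algebra F K] [IsScalarTower k F K] [FiniteDimensional F K] {b : ℕ} {X : Fin b → F}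

omit [CharZero k] in
theorem isAdic_assoc {p p' : MvPolynomial (Fin b) k} (hX : Gens (k := k) X) (h : Associated p p')
    {q : Place k F} (hq : IsAdic X p q) (hp : Irreducible p) : IsAdic X p' q := by
  obtain ⟨u, rfl⟩ := h
  refine ⟨?_, fun A hA => ⟨(hq.2 A hA).1, ?_⟩⟩
  · have hu0 : (u : MvPolynomial (Fin b) k) ≠ 0 := u.ne_zero
    have hu : q.ord (aeval X (u : MvPolynomial (Fin b) k)) = 0 := by
      refine ((hq.2 _ hu0).2).2 fun hd => hp.not_isUnit (isUnit_of_dvd_unit hd u.isUnit)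
    rw [map_mul, q.ord_mul (hX.ne hp.ne_zero) (hX.ne hu0), hq.1, hu, add_zero]
  · rw [(hq.2 A hA).2]
    exact not_congr (Units.mul_right_dvd (a := p) (b := A) (u := u)).symm

theorem finite_places (hX : Gens (k := k) X) {f : MvPolynomial (Fin b) k} (hf : f ≠ 0) :
    {P : Place k K | ∃ p : MvPolynomial (Fin b) k, Irreducible p ∧ p ∣ f ∧ ∃ q : Place k F,
      IsAdic X p q ∧ ∃ e, Over P q e}.Finite := by
  classical
  have : CharZero F := charZero_of_injective_algebraMap (algebraMap k F).injective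
  have h1 : (⋃ p' ∈ (UniqueFactorizationMonoid.factors f).toFinset,
      ⋃ q ∈ {q : Place k F | IsAdic X p' q}, {P : Place k K | ∃ e, Over P q e}).Finite := by
    refine Set.Finite.biUnion (Finset.finite_toSet _) fun p' hp' => ?_
    refine Set.Finite.biUnion ?_ fun q _ => Pool.Agent.Y172.finite_over q
    have hp'' : Irreducible p' :=
      UniqueFactorizationMonoid.irreducible_of_factor p' (Multiset.mem_toFinset.1 hp')
    exact Set.Subsingleton.finite fun q hq q' hq' =>
      Pool.Agent.Y172.adic_unique hX hp'' hq.1 hq.2 hq'.1 hq'.2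
  refine h1.subset ?_
  rintro P ⟨p, hp, hpf, q, hq, he⟩
  obtain ⟨p', hp', hpp'⟩ := UniqueFactorizationMonoid.exists_mem_factors_of_dvd hf hp hpf
  simp only [Set.mem_iUnion]
  exact ⟨p', Multiset.mem_toFinset.2 hp', q, isAdic_assoc hX hpp' hq hp, he⟩

theorem t_val : St_val := by
  intro k F K _ _ _ _ _ _ _ _ _ b X hX f hf hsq G hG hGreg κ t ψ hψ
  classical
  set S : Finset (Place k K) := (finite_places (K := K) hX hf).toFinset with hS
  have hmem : ∀ P : Place k K, P ∈ S ↔ ∃ p : MvPolynomial (Fin b) k, Irreducible p ∧ p ∣ f ∧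
      ∃ q : Place k F, IsAdic X p q ∧ ∃ e, Over P q e := by
    intro P
    rw [hS, Set.Finite.mem_toFinset]
    rfl
  have hord : ∀ p : MvPolynomial (Fin b) k, Irreducible p → p ∣ f → ∀ q : Place k F,
      IsAdic X p q → ∀ (P : Place k K) (e : ℕ), Over P q e →
        P.ord (algebraMap F K (aeval X f)) = e := by
    intro p hp hpf q hq P e he
    obtain ⟨f', rfl⟩ := hpf
    have hf' : f' ≠ 0 := right_ne_zero_of_mul hf
    have h1 : ¬ p ∣ f' := by
      intro h2
      exact hp.not_isUnit (hsq p (mul_dvd_mul_left p h2))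
    have h2 : q.ord (aeval X (p * f')) = 1 := by
      rw [map_mul, q.ord_mul (hX.ne hp.ne_zero) (hX.ne hf'), hq.1, ((hq.2 f' hf').2).2 h1,
        add_zero]
    rw [he.2, h2, mul_one]
  have hF0 : algebraMap F K (aeval X f) ≠ 0 := (_root_.map_ne_zero _).2 (hX.ne hf)
  obtain ⟨Z, hZ, hZ'⟩ := val_abs S (algebraMap F K (aeval X f)) G hF0 hG
    (fun P hP => by
      obtain ⟨p, hp, hpf, q, hq, e, he⟩ := (hmem P).1 hP
      rw [hord p hp hpf q hq P e he]
      have := he.1
      omega)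
    (fun P hP => by
      obtain ⟨p, hp, hpf, q, hq, e, he⟩ := (hmem P).1 hP
      exact hGreg p hp hpf q hq P e he)
    κ t ψ
    (fun P hP h1 h2 i => by
      obtain ⟨p, hp, hpf, q, hq, e, he⟩ := (hmem P).1 hP
      rw [hord p hp hpf q hq P e he] at h1
      exact hψ p hp hpf q hq P e he (by exact_mod_cast h1) h2 i)
  refine ⟨Z, fun z hz p hp hpf q hq P e he => hZ z hz P ((hmem P).2 ⟨p, hp, hpf, q, hq, e, he⟩),
    ?_⟩
  exact hZ'

end final

end Pool.Agent.Y32.OG
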