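import Pool.Agent.Y192.OG.StE

/-!
The Gauss valuation given by primitive weights is a place of the rational function field.
-/

set_option autoImplicit false

namespace Pool.Agent.Y32.OG

open FF MvPolynomial Pool.Agent.W603.LV Pool.Agent.TH122.AB Pool.Agent.Y192.OG

variable {k : Type} [Field k] {b : ℕ}

theorem tw_add (w : Fin b → ℤ) (c d : Fin b →₀ ℕ) : tw w (c + d) = tw w c + tw w d := by
  unfold tw
  rw [← Finset.sum_add_distrib]
  refine Finset.sum_congr rfl fun i _ => ?_
  rw [Finsupp.add_apply, Nat.cast_add, mul_add]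

theorem tw_zero (w : Fin b → ℤ) : tw w 0 = 0 := by
  simp [tw]

/-- the minimal weight of a monomial of a polynomial -/
noncomputable def nu (w : Fin b → ℤ) (A : MvPolynomial (Fin b) k) : ℤ :=
  open Classical in
  if h : A = 0 then 0 else A.support.inf' (support_nonempty.2 h) (tw w)

theorem nu_le (w : Fin b → ℤ) {A : MvPolynomial (Fin b) k} {c : Fin b →₀ ℕ}
    (hc : coeff c A ≠ 0) : nu w A ≤ tw w c := by
  have hA : A ≠ 0 := by rintro rfl; simp at hc
  rw [nu, dif_neg hA]
  exact Finset.inf'_le _ (mem_support_iff.2 hc)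

theorem exists_nu (w : Fin b → ℤ) {A : MvPolynomial (Fin b) k} (hA : A ≠ 0) :
    ∃ c, coeff c A ≠ 0 ∧ nu w A = tw w c := by
  rw [nu, dif_neg hA]
  obtain ⟨c, hc, h⟩ := Finset.exists_mem_eq_inf' (support_nonempty.2 hA) (tw w)
  exact ⟨c, mem_support_iff.1 hc, h⟩

/-- the part of weight `n` -/
noncomputable def part (w : Fin b → ℤ) (n : ℤ) (A : MvPolynomial (Fin b) k) :
    MvPolynomial (Fin b) k :=
  open Classical in
  ∑ c ∈ A.support.filter (fun c => tw w c = n), monomial c (coeff c A)

theorem coeff_part (w : Fin b → ℤ) (n : ℤ) (A : MvPolynomial (Fin b) k) (d : Fin b →₀ ℕ) :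
    coeff d (part w n A) = open Classical in if tw w d = n then coeff d A else 0 := by
  classical
  unfold part
  rw [coeff_sum]
  simp only [coeff_monomial]
  rw [Finset.sum_ite_eq']
  simp only [Finset.mem_filter, mem_support_iff]
  by_cases h1 : tw w d = n
  · rw [if_pos h1]
    by_cases h2 : coeff d A = 0
    · rw [h2]; simp
    · rw [if_pos ⟨h2, h1⟩]
  · rw [if_neg h1, if_neg (fun h => h1 h.2)]

theorem nu_mul (w : Fin b → ℤ) {A B : MvPolynomial (Fin b) k} (hA : A ≠ 0) (hB : B ≠ 0) :
    nu w (A * B) = nu w A + nu w B := by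
  classical
  apply le_antisymm
  · -- the product of the parts of minimal weight
    obtain ⟨a, ha, ha'⟩ := exists_nu w hA
    obtain ⟨c, hc, hc'⟩ := exists_nu w hB
    have h1 : part w (nu w A) A ≠ 0 := by
      intro h0
      have := coeff_part w (nu w A) A a
      rw [h0, coeff_zero, if_pos ha'.symm] at this
      exact ha this.symm
    have h2 : part w (nu w B) B ≠ 0 := by
      intro h0
      have := coeff_part w (nu w B) B c
      rw [h0, coeff_zero, if_pos hc'.symm] at this
      exact hc this.symm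
    obtain ⟨d, hd⟩ := ne_zero_iff.1 (mul_ne_zero h1 h2)
    have h3 : tw w d = nu w A + nu w B := by
      rw [coeff_mul] at hd
      obtain ⟨⟨p, q⟩, hpq, h4⟩ := Finset.exists_ne_zero_of_sum_ne_zero hd
      have h5 := left_ne_zero_of_mul h4
      have h6 := right_ne_zero_of_mul h4
      rw [coeff_part] at h5 h6
      have h7 : tw w p = nu w A := by
        by_contra hn
        exact h5 (if_neg hn)
      have h8 : tw w q = nu w B := by
        by_contra hn
        exact h6 (if_neg hn)
      rw [← Finset.HasAntidiagonal.mem_antidiagonal.1 hpq, tw_add, h7, h8]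
    have h4 : coeff d (A * B) = coeff d (part w (nu w A) A * part w (nu w B) B) := by
      rw [coeff_mul, coeff_mul]
      refine Finset.sum_congr rfl fun pq hpq => ?_
      have h5 : tw w pq.1 + tw w pq.2 = nu w A + nu w B := by
        rw [← tw_add, Finset.HasAntidiagonal.mem_antidiagonal.1 hpq, h3]
      rw [coeff_part, coeff_part]
      by_cases h6 : coeff pq.1 A = 0
      · rw [h6]; simp
      by_cases h7 : coeff pq.2 B = 0
      · rw [h7]; simp
      have h8 := nu_le w h6
      have h9 := nu_le w h7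
      rw [if_pos (by omega), if_pos (by omega)]
    rw [← h3]
    exact nu_le w (by rw [h4]; exact hd)
  · obtain ⟨d, hd, hd'⟩ := exists_nu w (mul_ne_zero hA hB)
    rw [hd']
    rw [coeff_mul] at hd
    obtain ⟨⟨p, q⟩, hpq, h4⟩ := Finset.exists_ne_zero_of_sum_ne_zero hd
    have h5 := nu_le w (left_ne_zero_of_mul h4)
    have h6 := nu_le w (right_ne_zero_of_mul h4)
    rw [← Finset.HasAntidiagonal.mem_antidiagonal.1 hpq, tw_add]
    exact add_le_add h5 h6

theorem nu_add (w : Fin b → ℤ) {A B : MvPolynomial (Fin b) k} (hAB : A + B ≠ 0) :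
    min (nu w A) (nu w B) ≤ nu w (A + B) := by
  obtain ⟨d, hd, hd'⟩ := exists_nu w hAB
  rw [hd']
  by_cases h1 : coeff d A = 0
  · have h2 : coeff d B ≠ 0 := by
      intro h2
      apply hd
      rw [coeff_add, h1, h2, add_zero]
    exact le_trans (min_le_right _ _) (nu_le w h2)
  · exact le_trans (min_le_left _ _) (nu_le w h1)

theorem nu_monomial (w : Fin b → ℤ) (c : Fin b →₀ ℕ) {a : k} (ha : a ≠ 0) :
    nu w (monomial c a) = tw w c := by
  classical
  have h0 : (monomial c a : MvPolynomial (Fin b) k) ≠ 0 := by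
    rw [Ne, monomial_eq_zero]; exact ha
  obtain ⟨d, hd, hd'⟩ := exists_nu w h0
  rw [coeff_monomial] at hd
  have : c = d := by
    by_contra hn
    exact hd (if_neg hn)
  rw [hd', this]

theorem t_tor : St_tor := by
  intro k F _ _ _ b X hX w hw
  obtain ⟨c, hc⟩ := hw
  have hdeg : Deg (fun A : MvPolynomial (Fin b) k => nu w A) := by
    refine ⟨fun P Q hP hQ => nu_mul w hP hQ, fun P Q _ _ hPQ => nu_add w hPQ, fun a ha => ?_⟩
    rw [← monomial_zero', nu_monomial w 0 ha, tw_zero]
  let cp : Fin b →₀ ℕ := Finsupp.equivFunOnFinite.symm fun i => (c i).toNat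
  let cm : Fin b →₀ ℕ := Finsupp.equivFunOnFinite.symm fun i => (-c i).toNat
  have hpm : tw w cp = tw w cm + 1 := by
    rw [← sub_eq_iff_eq_add', ← hc]
    unfold tw
    rw [← Finset.sum_sub_distrib]
    refine Finset.sum_congr rfl fun i _ => ?_
    rw [← mul_sub]
    congr 1
    change ((c i).toNat : ℤ) - ((-c i).toNat : ℤ) = c i
    omega
  obtain ⟨q, hq⟩ := exists_place hX hdeg ⟨monomial cp 1, monomial cm 1,
    by rw [Ne, monomial_eq_zero]; exact one_ne_zero,
    by rw [Ne, monomial_eq_zero]; exact one_ne_zero, by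
      rw [nu_monomial w cp one_ne_zero, nu_monomial w cm one_ne_zero, hpm]⟩
  refine ⟨q, fun A hA => ⟨fun d hd => ?_, ?_⟩⟩
  · rw [hq A hA]
    exact nu_le w (mem_support_iff.1 hd)
  · obtain ⟨d, hd, hd'⟩ := exists_nu w hA
    exact ⟨d, mem_support_iff.2 hd, by rw [hq A hA, hd']⟩

end Pool.Agent.Y32.OG
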